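import Pool.Agent.Q244.TD.Disj

/-!
# The `Σ`-Leopoldt conjecture: few characters violate it with coordinates in a given space

Let `A ⊂ ℂ_p` be a space of finite dimension `m` over the field of algebraic numbers.  We consider the
elements `x ≠ 0`, with coordinates in `A`, of the kernel of the regulator map `log_{S,p}` on the
`χ`-part of `ℂ_p ⊗ 𝓞_H^×`; here `H/K` is an extension of number fields, `χ` a character of `Gal(H/K)`
and `S` a set of embeddings of `K`, for example a CM type.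

(1) For several such data `(K_k, H_k, χ_k, S_k)`, for which the characters of the absolute Galois
groups of the fields `s(K_k)`, `s ∈ S_k`, defined by the `χ_k` are pairwise different on the
intersections of these groups, the dimensions `r_k` of the spaces generated by these elements satisfy
`∑ |S_k| r_k ≤ m (m - 1)`.

(2) For every number field `K` and every embedding `s ∈ S`, at most `m (m - 1)` characters of the
absolute Galois group of `s(K)` have such an element `x`.

(3) If the `(F_k, K_k, S_k)` are CM types, the `χ_k ≠ 1` satisfy Mackey's condition, and the normal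
closures of the `H_k` meet pairwise in subfields of the `s(K_k)`, then `∑ [F_k : ℚ] r_k ≤ m (m - 1)`.

Proof.  Elements of the parts of `ℂ_p ⊗ 𝓞^×` belonging to different characters are linearly
independent.  So all the `σ(x)`, `σ` over `S`, are independent relations with coefficients in `A` between
`p`-adic logarithms of units, and the `p`-adic hyperplane theorem gives the bound.  (3) follows from (1) by
Galois theory.
-/

set_option autoImplicit false

namespace Pool.Agent.Results.MP_fc6b1e_nt.FewCharacters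

open NumberField Module TensorProduct
open Pool.Agent.W289.SL (IsIwasawaLog UM IsCMType)
open Pool.Agent.W332.SL7 (QSub FinQ dimQ Coords InKernel Indep Bounds)

section generic

variable {Ω : Type} [Field Ω] [CharZero Ω]

variable (Ω) in
/-- The absolute Galois group of `ℚ`: the automorphisms of the field of algebraic numbers in `Ω`. -/
abbrev GalQ : Type := algebraicClosure ℚ Ω ≃ₐ[ℚ] algebraicClosure ℚ Ω

/-- `g (σ y) = σ (h y)` for all `y` in `H`. -/
def Induces {H : Type} [Field H] (g : GalQ Ω) (σ : H →+* Ω) (h : H →+* H) : Prop :=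
  ∀ (y : H) (z : algebraicClosure ℚ Ω), (z : Ω) = σ y →
    ((g z : algebraicClosure ℚ Ω) : Ω) = σ (h y)

/-- The characters defined by `χ`, `σ` and by `χ'`, `σ'` have different values at some `g`. -/
def Differ {K H K' H' : Type} [Field K] [Field H] [Algebra K H] [Field K'] [Field H'] [Algebra K' H']
    (χ : (H ≃ₐ[K] H) →* Ωˣ) (σ : H →+* Ω) (χ' : (H' ≃ₐ[K'] H') →* Ωˣ) (σ' : H' →+* Ω) : Prop :=
  ∃ (g : GalQ Ω) (h : H ≃ₐ[K] H) (h' : H' ≃ₐ[K'] H'), Induces g σ (h : H →+* H) ∧
    Induces g σ' (h' : H' →+* H') ∧ χ h ≠ χ' h'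

/-- The restriction of `σ` to `K`. -/
def res (K : Type) {H : Type} [Field K] [Field H] [Algebra K H] (σ : H →+* Ω) : K →+* Ω :=
  σ.comp (algebraMap K H)

/-- Mackey's condition: `χ` is separated from itself at embeddings over different elements of `S`. -/
def Mackey {K H : Type} [Field K] [Field H] [Algebra K H] (S : Set (K →+* Ω))
    (χ : (H ≃ₐ[K] H) →* Ωˣ) : Prop :=
  ∀ σ σ' : H →+* Ω, res K σ ∈ S → res K σ' ∈ S → res K σ ≠ res K σ' → Differ χ σ χ σ'

/-- The two characters differ for all embeddings over `S` and `S'`. -/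
def Apart {K H K' H' : Type} [Field K] [Field H] [Algebra K H] [Field K'] [Field H'] [Algebra K' H']
    (S : Set (K →+* Ω)) (χ : (H ≃ₐ[K] H) →* Ωˣ) (S' : Set (K' →+* Ω))
    (χ' : (H' ≃ₐ[K'] H') →* Ωˣ) : Prop :=
  ∀ (σ : H →+* Ω) (σ' : H' →+* Ω), res K σ ∈ S → res K' σ' ∈ S' → Differ χ σ χ' σ'

/-- The absolute Galois group of the field `s(K)`. -/
def GalOf {K : Type} [Field K] (s : K →+* Ω) : Subgroup (GalQ Ω) where
  carrier := {g | ∀ (y : K) (z : algebraicClosure ℚ Ω), (z : Ω) = s y → g z = z}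
  mul_mem' := by
    intro a b ha hb y z hz
    rw [AlgEquiv.mul_apply, hb y z hz, ha y z hz]
  one_mem' := fun y z _ => rfl
  inv_mem' := by
    intro a ha y z hz
    have h1 := ha y z hz
    calc (a⁻¹ : GalQ Ω) z = (a⁻¹ : GalQ Ω) (a z) := by rw [h1]
      _ = z := a.symm_apply_apply z

/-- The characters of the absolute Galois group of `s(K)`. -/
abbrev Chars {K : Type} [Field K] (s : K →+* Ω) : Type := GalOf s →* Ωˣ

/-- `ψ` is the character of the absolute Galois group of `s(K)` which is defined by `χ` and by the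
embedding `σ` over `s`. -/
def Inflation {K H : Type} [Field K] [Field H] [Algebra K H] (s : K →+* Ω)
    (ψ : Chars s) (χ : (H ≃ₐ[K] H) →* Ωˣ) (σ : H →+* Ω) : Prop :=
  res K σ = s ∧ ∀ (g : GalOf s) (h : H ≃ₐ[K] H), Induces (g : GalQ Ω) σ (h : H →+* H) → ψ g = χ h

variable (Ω) in
/-- The compositum in `Ω` of the images of all embeddings of `H`. -/
noncomputable def hull (H : Type) [Field H] [NumberField H] : IntermediateField ℚ Ω :=
  ⨆ σ : H →+* Ω, (RingHom.toRatAlgHom σ).fieldRange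

/-- The elements of `Ω` in the hulls of `H` and `H'` are elements of `s(K)`. -/
def SmallIntersection {K : Type} [Field K] (s : K →+* Ω) (H H' : Type) [Field H] [NumberField H]
    [Field H'] [NumberField H'] : Prop :=
  ∀ z ∈ hull Ω H ⊓ hull Ω H', ∃ y, s y = z

end generic

variable {p : ℕ} [Fact p.Prime]

/-- The kernel of `log_{S,p}` in the `χ`-part contains `r` linearly independent elements with
coordinates in `A`. -/
def KernelElements {L : ℂ_[p] → ℂ_[p]} (hL : IsIwasawaLog p L) (A : QSub ℂ_[p]) {K H : Type}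
    [Field K] [Field H] [NumberField H] [Algebra K H] (S : Set (K →+* ℂ_[p]))
    (χ : (H ≃ₐ[K] H) →* ℂ_[p]ˣ) (r : ℕ) : Prop :=
  ∃ x : Fin r → UM p H, Indep x ∧ ∀ i, InKernel S χ hL (x i) ∧ Coords A (x i)

/-- (1) The total number of elements for several characters. -/
def TotalBound {L : ℂ_[p] → ℂ_[p]} (hL : IsIwasawaLog p L) (A : QSub ℂ_[p]) : Prop :=
  ∀ (M : ℕ) (K H : Fin M → Type) [∀ k, Field (K k)] [∀ k, NumberField (K k)] [∀ k, Field (H k)]
    [∀ k, NumberField (H k)] [∀ k, Algebra (K k) (H k)] (S : ∀ k, Set (K k →+* ℂ_[p]))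
    (χ : ∀ k, (H k ≃ₐ[K k] H k) →* ℂ_[p]ˣ), (∀ k, Mackey (S k) (χ k)) →
    (∀ k k', k ≠ k' → Apart (S k) (χ k) (S k') (χ k')) →
    ∀ r : Fin M → ℕ, (∀ k, KernelElements hL A (S k) (χ k) (r k)) →
      Bounds A (∑ k, (S k).ncard * r k)

/-- The `ψ`-part contains `r` linearly independent elements of the kernel with coordinates in `A`. -/
def Exceptional {L : ℂ_[p] → ℂ_[p]} (hL : IsIwasawaLog p L) (A : QSub ℂ_[p]) {K : Type} [Field K]
    (S : Set (K →+* ℂ_[p])) (s : K →+* ℂ_[p]) (ψ : Chars s) (r : ℕ) : Prop :=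
  ∃ (H : Type) (_ : Field H) (_ : NumberField H) (_ : Algebra K H) (_ : IsGalois K H)
    (χ : (H ≃ₐ[K] H) →* ℂ_[p]ˣ) (σ : H →+* ℂ_[p]), Inflation s ψ χ σ ∧ KernelElements hL A S χ r

/-- (2) Few characters of a given field are exceptional. -/
def FewExceptional {L : ℂ_[p] → ℂ_[p]} (hL : IsIwasawaLog p L) (A : QSub ℂ_[p]) : Prop :=
  ∀ (K : Type) [Field K] [NumberField K] (S : Set (K →+* ℂ_[p])), ∀ s ∈ S,
    (∀ (M : ℕ) (ψ : Fin M → Chars s), Function.Injective ψ → ∀ r : Fin M → ℕ,
      (∀ k, Exceptional hL A S s (ψ k) (r k)) → Bounds A (∑ k, r k)) ∧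
    {ψ | Exceptional hL A S s ψ 1}.Finite ∧
    {ψ | Exceptional hL A S s ψ 1}.ncard ≤ dimQ A * (dimQ A - 1)

/-- (3) CM types and fields whose normal closures have small intersections. -/
def CMTypes {L : ℂ_[p] → ℂ_[p]} (hL : IsIwasawaLog p L) (A : QSub ℂ_[p]) : Prop :=
  ∀ (M : ℕ) (F K H : Fin M → Type) [∀ k, Field (F k)] [∀ k, NumberField (F k)] [∀ k, Field (K k)]
    [∀ k, NumberField (K k)] [∀ k, Algebra (F k) (K k)] [∀ k, Field (H k)] [∀ k, NumberField (H k)]
    [∀ k, Algebra (K k) (H k)] (S : ∀ k, Set (K k →+* ℂ_[p]))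
    (χ : ∀ k, (H k ≃ₐ[K k] H k) →* ℂ_[p]ˣ), (∀ k, finrank (F k) (K k) = 2) →
    (∀ k, IsCMType p (F k) (K k) (S k)) → (∀ k, χ k ≠ 1) → (∀ k, Mackey (S k) (χ k)) →
    (∀ k k', k ≠ k' → ∀ s ∈ S k, SmallIntersection s (H k) (H k')) →
    ∀ r : Fin M → ℕ, (∀ k, KernelElements hL A (S k) (χ k) (r k)) →
      Bounds A (∑ k, finrank ℚ (F k) * r k)

section aux

variable {L : ℂ_[p] → ℂ_[p]} (hL : IsIwasawaLog p L) (A : QSub ℂ_[p]) (hA : FinQ A)

include hA

private theorem total : TotalBound hL A := by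
  classical
  intro M K H _ _ _ _ _ S χ hM hA' r hr
  have hfin : ∀ k, FiniteDimensional (K k) (H k) := fun k =>
    Module.Finite.of_restrictScalars_finite ℚ (K k) (H k)
  have : ∀ k, Fintype (S k) := fun k => (Set.toFinite (S k)).fintype
  choose x hx0 hx using hr
  choose σ hσ using fun (k : Fin M) (b : S k) =>
    Pool.Agent.W332.SL6.exists_ext (H := H k) (b : K k →+* ℂ_[p])
  have hσ' : ∀ k (b : S k), res (K k) (σ k b) = (b : K k →+* ℂ_[p]) := hσ
  have h1 := Pool.Agent.Q244.TD.bounds_sep hL A hA (J := Σ k, S k) (fun j => K j.1) (fun j => H j.1)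
    (fun j => χ j.1) (fun j => σ j.1 j.2) ?_ (fun j => r j.1) (fun j => x j.1) (fun j => hx0 j.1)
    (fun j i => (hx j.1 i).1.1) (fun j i => (hx j.1 i).1.2 _ (by rw [hσ]; exact j.2.2))
    (fun j i => (hx j.1 i).2)
  · have h2 : ∑ j : (Σ k, S k), r j.1 = ∑ k, (S k).ncard * r k := by
      rw [Fintype.sum_sigma]
      refine Finset.sum_congr rfl fun k _ => ?_
      simp only [Finset.sum_const, smul_eq_mul, Finset.card_univ]
      rw [← Nat.card_coe_set_eq, Nat.card_eq_fintype_card]
    rw [h2] at h1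
    exact h1
  · rintro ⟨k, b⟩ ⟨k', b'⟩ hne
    by_cases hk : k = k'
    · subst hk
      refine hM k (σ k b) (σ k b') (by rw [hσ']; exact b.2) (by rw [hσ']; exact b'.2) ?_
      rw [hσ', hσ']
      exact fun h => hne (by rw [Subtype.ext h])
    · exact hA' k k' hk (σ k b) (σ k' b') (by rw [hσ']; exact b.2) (by rw [hσ']; exact b'.2)

omit hA in
private theorem induced {K H : Type} [Field K] [NumberField K] [Field H] [NumberField H] [Algebra K H]
    [IsGalois K H] {s : K →+* ℂ_[p]} (g : GalOf s) (σ : H →+* ℂ_[p])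
    (hσ : σ.comp (algebraMap K H) = s) : ∃ h : H ≃ₐ[K] H, Induces (g : GalQ ℂ_[p]) σ (h : H →+* H) := by
  obtain ⟨h, hh⟩ := Pool.Agent.W332.SL6.exists_aut (K := K) (H := H)
    ((((g : GalQ ℂ_[p]) : algebraicClosure ℚ ℂ_[p] ≃ₐ[ℚ] algebraicClosure ℚ ℂ_[p]) :
      algebraicClosure ℚ ℂ_[p] →+* algebraicClosure ℚ ℂ_[p]).comp (Pool.Agent.Q244.TD.toQb σ))
    (Pool.Agent.Q244.TD.toQb σ) (by
      ext y
      have h1 := g.2 y (Pool.Agent.Q244.TD.toQb σ (algebraMap K H y)) (by
        rw [← hσ]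
        rfl)
      exact congrArg Subtype.val h1)
  refine ⟨h, fun y z hz => ?_⟩
  have h1 : z = Pool.Agent.Q244.TD.toQb σ y := Subtype.ext hz
  subst h1
  exact congrArg (fun z : algebraicClosure ℚ ℂ_[p] => (z : ℂ_[p])) (RingHom.congr_fun hh y)

private theorem few_aux {K : Type} [Field K] [NumberField K] (S : Set (K →+* ℂ_[p])) {s} (hs : s ∈ S)
    {J : Type} [Fintype J] (ψ : J → Chars s) (hψ : Function.Injective ψ) (r : J → ℕ)
    (hr : ∀ k, Exceptional hL A S s (ψ k) (r k)) : Bounds A (∑ k, r k) := by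
  classical
  choose H i1 i2 i3 i4 χ σ hinf x hx0 hx using hr
  refine Pool.Agent.Q244.TD.bounds_sep hL A hA (fun _ => K) H χ σ ?_ r x hx0
    (fun j i => (hx j i).1.1) (fun j i => (hx j i).1.2 _ (by
      rw [show (σ j).comp (algebraMap K (H j)) = s from (hinf j).1]
      exact hs))
    (fun j i => (hx j i).2)
  intro j j' hjj'
  obtain ⟨g, hg⟩ : ∃ g, ψ j g ≠ ψ j' g := by
    by_contra hcon
    push Not at hcon
    exact hjj' (hψ (MonoidHom.ext hcon))
  obtain ⟨h, h1⟩ := induced g (σ j) (hinf j).1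
  obtain ⟨h', h2⟩ := induced g (σ j') (hinf j').1
  refine ⟨g, h, h', h1, h2, ?_⟩
  rw [← (hinf j).2 g h h1, ← (hinf j').2 g h' h2]
  exact hg

private theorem few : FewExceptional hL A := by
  classical
  intro K _ _ S s hs
  have key : ∀ T : Finset (Chars s), (∀ ψ ∈ T, Exceptional hL A S s ψ 1) →
      T.card ≤ dimQ A * (dimQ A - 1) := by
    intro T hT
    have h1 := few_aux hL A hA S hs (J := T) (fun ψ => ψ.1) Subtype.val_injective (fun _ => 1)
      (fun ψ => hT _ ψ.2)
    have h2 := h1.dim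
    simpa using h2
  have hfin : {ψ | Exceptional hL A S s ψ 1}.Finite := by
    by_contra hinf
    obtain ⟨T, hT, hcard⟩ := Set.Infinite.exists_subset_card_eq hinf (dimQ A * (dimQ A - 1) + 1)
    have h1 := key T fun ψ hψ => hT hψ
    omega
  refine ⟨fun M ψ hψ r hr => few_aux hL A hA S hs ψ hψ r hr, hfin, ?_⟩
  have h1 := key hfin.toFinset fun ψ hψ => (Set.Finite.mem_toFinset hfin).1 hψ
  rwa [← Set.ncard_eq_toFinset_card _ hfin] at h1

private theorem cm : CMTypes hL A := by
  intro M F K H _ _ _ _ _ _ _ _ S χ h2 hS hχ hM hinf r hr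
  have h1 := total hL A hA M K H S χ hM (fun k k' hk σ σ' hσ _ =>
    Pool.Agent.Q244.TD.differ_of_inf (χ k) (hχ k) σ (χ k') σ' fun z hz => hinf k k' hk _ hσ z hz)
    r hr
  have h3 : ∀ k, (S k).ncard = finrank ℚ (F k) := fun k =>
    Pool.Agent.W332.SL7.ncard_cmtype (F k) (K k) (h2 k) (S k) (hS k)
  simp only [h3] at h1
  exact h1

end aux

/-- **Main result.** -/
theorem result (p : ℕ) [Fact p.Prime] (L : ℂ_[p] → ℂ_[p]) (hL : IsIwasawaLog p L)
    (A : QSub ℂ_[p]) (hA : FinQ A) :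
    TotalBound hL A ∧ FewExceptional hL A ∧ CMTypes hL A :=
  ⟨total hL A hA, few hL A hA, cm hL A hA⟩

end Pool.Agent.Results.MP_fc6b1e_nt.FewCharacters
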