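import Mathlib
import Pool.Agent.Q22.LE.Sig2

set_option autoImplicit false

/-! # A lower bound for the number of totally real fields `F` for which the `Σ`-Leopoldt conjecture
holds for a quadratic character of `K = F k`

Let `k` be an imaginary quadratic field, `d ≥ 2` and `P` a finite set of primes.  For large `X` there
are at least `c X^(1/(2d(d-1))) / (log X)^((d-1)²)` pairwise non-isomorphic totally real fields `F` of
degree `d` with discriminant at most `X` such that there are a CM field `K ⊇ k`, `[K : F] = 2`, and a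
quadratic extension `H = K(√α)` of `K` with character `χ`, `χ ∘ c ≠ χ`, such that the `Σ`-Leopoldt
conjecture holds for `χ`, all `p ∈ P` and all CM types `Σ` of `K` with values in `ℂ_p`.

Proof. The fields are those of the starting hand-in EveryDegree: `F = ℚ(w)`, `∏ (w - b_i t²) = 1`, with
parameter `t ≤ R`.  The `w - b_i t²` are units with conjugates at most `C R²`, and a field of degree
`d` has at most `C (log R)^(d-1)` such units, uniformly in the field; so it belongs to at most
`C (log R)^((d-1)²)` values of `t`. -/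

namespace Pool.Agent.Results.MP_fc6b1e_nt.ManyFields

open NumberField
open Pool.Agent.W289.SL (IsCMType SigmaLeopoldt)

/-- Over the totally real field `F` there are a totally complex quadratic extension `K`, containing
`k`, and a quadratic extension `K(√α)` of `K` (`α` is not a square) such that `α c(α)` is not a
square either (`χ ∘ c ≠ χ`) and such that the `Σ`-Leopoldt conjecture holds for the nontrivial
character `χ` of `H/K`, `H = K(√α)`, for every prime `p ∈ P` and every CM type `S` of `K` with values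
in `ℂ_p`. -/
def HasCharacter (P : Set ℕ) (k : Type) [Field k] (F : Type) [Field F] : Prop :=
  ∃ (K : Type) (_ : Field K) (_ : NumberField K) (_ : Algebra F K) (α : K), Nonempty (k →+* K) ∧
    Module.finrank F K = 2 ∧ IsTotallyComplex K ∧ ¬ IsSquare α ∧
    (∀ c : K ≃ₐ[F] K, c ≠ 1 → ¬ IsSquare (α * c α)) ∧
    ∀ (H : Type) [Field H] [NumberField H] [Algebra K H] (θ : H), Module.finrank K H = 2 →
      θ ^ 2 = algebraMap K H α → ∀ p ∈ P, ∀ [Fact p.Prime], ∀ S : Set (K →+* ℂ_[p]),
        IsCMType p F K S → ∀ χ : (H ≃ₐ[K] H) →* ℂ_[p]ˣ, χ ≠ 1 → SigmaLeopoldt p K H S χ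

theorem result (P : Finset ℕ) (hP : ∀ p ∈ P, p.Prime) (k : Type) [Field k] [NumberField k]
    [IsTotallyComplex k] (hk : Module.finrank ℚ k = 2) (d : ℕ) (hd : 2 ≤ d) :
    ∃ c : ℝ, 0 < c ∧ ∃ X₀ : ℝ, ∀ X : ℝ, X₀ ≤ X →
      ∃ (q : ℕ) (F : Fin q → Type) (_ : ∀ i, Field (F i)) (_ : ∀ i, NumberField (F i)),
        c * X ^ ((1 : ℝ) / (2 * (d * (d - 1)) : ℕ)) / Real.log X ^ ((d - 1) ^ 2) ≤ q ∧
        (∀ i j, i ≠ j → IsEmpty (F i ≃+* F j)) ∧
        ∀ i, Module.finrank ℚ (F i) = d ∧ IsTotallyReal (F i) ∧ |(discr (F i) : ℝ)| ≤ X ∧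
          HasCharacter P k (F i) := by
  obtain ⟨m, rfl⟩ : ∃ m, d = m + 1 := ⟨d - 1, by omega⟩
  exact Pool.Agent.Q22.LE.sig_final P hP k hk m (by omega)

end Pool.Agent.Results.MP_fc6b1e_nt.ManyFields
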