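import Pool.Agent.Q244.LK.Sig

/-!
# The `Σ`-Leopoldt kernels with coordinates in a given space come from one number field

Let `H/K` be a finite Galois extension of number fields, `χ` an injective character of `Gal(H/K)` with
values in `ℂ_p` and `S` a set of embeddings of `K` into `ℂ_p`, for example a CM type.  We consider the
elements `x` of the `χ`-part of `ℂ_p ⊗ 𝓞_H^×` with `log_{S,p}(x) = 0`.  Let `A` be a subspace of `ℂ_p`, of
finite dimension over the field of algebraic numbers.  There is one number field `F ⊆ ℂ_p`, normal over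
`ℚ` and depending only on `A` and `p`, such that for all `K`, `H`, `χ`, `S`, all such `x ≠ 0` with
coordinates in `A`, and every embedding `σ` of `H` whose restriction to `K` lies in `S`:

* `H` is generated over `K` by the elements which `σ` maps to `F`;
* the order of `χ`, which is `[H : K]`, is at most `[F : ℚ]`;
* `σ` maps some element of `K` outside `ℚ` to `F`;
* `x` is a sum of tensors `a ⊗ u` with `a ∈ A` and units `u` with `σ(u) ∈ F`.

Proof.  By the `p`-adic hyperplane theorem and Brumer's theorem the logarithms `log_p (σ u_i)`, for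
`x = ∑ a_i ⊗ u_i` with `a_i` linearly independent over `ℚ`, lie in one rational space of finite dimension;
this gives `F` and the last assertion.  An automorphism `τ` of `H/K` which is trivial on `σ⁻¹(F)` fixes `x`,
so that `χ(τ) = 1`.  If `K ∩ σ⁻¹(F) = ℚ` then all the embeddings of `σ⁻¹(F)` are conjugate under `Gal(H/K)`,
therefore `x` is a multiple of a vector with algebraic coordinates and Brumer's theorem gives `x = 0`.
-/

set_option autoImplicit false

namespace Pool.Agent.Results.MP_fc6b1e_nt.OneNumberField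

open NumberField Module TensorProduct
open Pool.Agent.W289.SL (IsIwasawaLog UM)
open Pool.Agent.W332.SL7 (QSub FinQ Coords InKernel)

variable {p : ℕ} [Fact p.Prime]

/-- The elements of `H` which `σ` maps to `F`. -/
def pre {H : Type} [Field H] (σ : H →+* ℂ_[p]) (F : IntermediateField ℚ ℂ_[p]) : Set H :=
  {z | σ z ∈ F}

/-- `x` is a sum of tensors `a ⊗ u` with `a ∈ A` and `σ(u) ∈ F`. -/
def DefinedOver {H : Type} [Field H] [NumberField H] (A : QSub ℂ_[p])
    (F : IntermediateField ℚ ℂ_[p]) (σ : H →+* ℂ_[p]) (x : UM p H) : Prop :=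
  x ∈ AddSubmonoid.closure {y : UM p H | ∃ a ∈ A, ∃ u : Additive (𝓞 H)ˣ,
    (((Additive.toMul u : (𝓞 H)ˣ) : 𝓞 H) : H) ∈ pre σ F ∧ y = a ⊗ₜ[ℤ] u}

/-- The conclusion, for the embedding `σ` of `H`. -/
def Controlled (K : Type) {H : Type} [Field K] [Field H] [NumberField H] [Algebra K H]
    (A : QSub ℂ_[p]) (F : IntermediateField ℚ ℂ_[p]) (σ : H →+* ℂ_[p]) (x : UM p H) : Prop :=
  IntermediateField.adjoin K (pre σ F) = ⊤ ∧ finrank K H ≤ finrank ℚ F ∧
  (∃ z : K, (∀ q : ℚ, z ≠ q) ∧ algebraMap K H z ∈ pre σ F) ∧ DefinedOver A F σ x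

/-- **Main result.** -/
theorem result (p : ℕ) [Fact p.Prime] (L : ℂ_[p] → ℂ_[p]) (hL : IsIwasawaLog p L)
    (A : QSub ℂ_[p]) (hA : FinQ A) :
    ∃ F : IntermediateField ℚ ℂ_[p], FiniteDimensional ℚ F ∧ Normal ℚ F ∧
      ∀ (K H : Type) [Field K] [NumberField K] [Field H] [NumberField H] [Algebra K H]
        [IsGalois K H] (χ : (H ≃ₐ[K] H) →* ℂ_[p]ˣ), Function.Injective χ →
        ∀ (S : Set (K →+* ℂ_[p])) (x : UM p H), x ≠ 0 → InKernel S χ hL x → Coords A x →
          ∀ σ : H →+* ℂ_[p], σ.comp (algebraMap K H) ∈ S → Controlled K A F σ x := by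
  obtain ⟨F, h1, h2, h3⟩ := Pool.Agent.Q244.LK.one_field hL A hA
  refine ⟨F, h1, h2, ?_⟩
  intro K H _ _ _ _ _ _ χ hχ S x hx0 hx hxA σ hσ
  have hfin : FiniteDimensional K H := Module.Finite.of_restrictScalars_finite ℚ K H
  have h0 := hx.2 σ hσ
  obtain ⟨x₀, h4, h5⟩ := h3 H σ x hxA h0 (Pool.Agent.Q244.LK.sub σ F) fun z hz => hz
  have hfix : ∀ τ : H ≃ₐ[K] H, (∀ z ∈ Pool.Agent.Q244.LK.sub σ F, τ z = z) → τ = 1 :=
    fun τ hτ => Pool.Agent.Q244.LK.fix_one hχ hx0 hx.1 _ h5 τ hτ
  refine ⟨?_, ?_, ?_, ?_⟩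
  · exact Pool.Agent.Q244.LK.adjoin_top _ fun τ hτ => hfix τ fun z hz => hτ z hz
  · exact Pool.Agent.Q244.LK.deg_le σ F hfix
  · exact Pool.Agent.Q244.LK.base_ne hL hx0 hx.1 σ h0 _
      (fun τ z hz => Pool.Agent.Q244.LK.stable_sub σ F τ hz) h5
  · rw [← h5]
    refine AddSubmonoid.closure_induction (motive := fun y _ =>
      DefinedOver A F σ (Pool.Agent.W332.SL6.push
        (algebraMap (Pool.Agent.Q244.LK.sub σ F) H) y)) ?_ ?_ ?_ h4
    · rintro _ ⟨a, ha, u, rfl⟩
      refine AddSubmonoid.subset_closure ⟨a, ha, _, ?_,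
        Pool.Agent.W332.SL6.push_tmul _ _ _⟩
      exact (((Additive.toMul u : (𝓞 (Pool.Agent.Q244.LK.sub σ F))ˣ) :
        𝓞 (Pool.Agent.Q244.LK.sub σ F)) : Pool.Agent.Q244.LK.sub σ F).2
    · rw [map_zero]
      exact AddSubmonoid.zero_mem _
    · intro y z _ _ hy hz
      rw [map_add]
      exact AddSubmonoid.add_mem _ hy hz

end Pool.Agent.Results.MP_fc6b1e_nt.OneNumberField
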